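import Mathlib

/-!
# The lower irredundance number of the queens graph is at least `n / 3`

For every maximal irredundant set `S` of squares of the `n × n` board (queens graph `Q_n`) we prove `n ≤ 3 |S|`; so
`ir(Q_n) ≥ n / 3`. The bound known before, `ir(Q_n) ≥ (n + 1) / 4`, follows from Spencer's bound
`γ(Q_n) ≥ (n - 1) / 2` and from the general inequality `γ ≤ 2 ir - 1`.

Proof. Let `|S| = k` and `3k < n`, and let `u` be a square which is not attacked and not occupied. If `v` is `u` or
attacked from `u`, then by maximality a queen on `v` destroys all private neighbours of some queen `s` in `S`. This holds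
for the `n` squares `v` in the row of `u`. A square outside of this row attacks at most three squares of it, so, as
`3k < n`, there is `s` in `S` all of whose private neighbours are in the row of `u`; and likewise for the column of `u`.
Hence the undominated squares are in at most `k` rows and in at most `k` columns. Moreover a queen `s` whose private
neighbours are in one column shares its row with another queen: if not, all but one of the squares of the row of `s` were
attacked by the other queens, three at most by each of them. Now the argument of Spencer for two empty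
columns, which fails only in the rows of undominated squares, gives `n ≤ k + k + (k - 1) + 1`.
-/

set_option autoImplicit false

namespace Pool.Agent.Results.MP_475ccd_co.ThirdBoundH58

/-- The queens graph `Q_n`: two distinct squares are adjacent if they are in the same row, in the same column or on a
common diagonal. -/
def queens (n : ℕ) : SimpleGraph (Fin n × Fin n) where
  Adj p q := p ≠ q ∧ (p.1 = q.1 ∨ p.2 = q.2 ∨ |(p.1 : ℤ) - (q.1 : ℤ)| = |(p.2 : ℤ) - (q.2 : ℤ)|)
  symm := ⟨fun p q h => ⟨h.1.symm, by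
    rcases h.2 with h | h | h
    · exact Or.inl h.symm
    · exact Or.inr (Or.inl h.symm)
    · refine Or.inr (Or.inr ?_)
      rw [abs_sub_comm, h, abs_sub_comm]⟩⟩
  loopless := ⟨fun _ h => h.1 rfl⟩

/-- The closed neighbourhood `N[v]`. -/
def closedNbhd {V : Type} (G : SimpleGraph V) (v : V) : Set V := {w | w = v ∨ G.Adj v w}

/-- The union `N[S]` of the closed neighbourhoods of the elements of `S`. -/
def closedNbhdSet {V : Type} (G : SimpleGraph V) (S : Set V) : Set V := {w | ∃ s ∈ S, w ∈ closedNbhd G s}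

/-- `S` is irredundant: `N[v] \ N[S \ {v}]` is not empty for every `v` in `S`. -/
def Irredundant {V : Type} (G : SimpleGraph V) (S : Set V) : Prop :=
  ∀ v ∈ S, (closedNbhd G v \ closedNbhdSet G (S \ {v})).Nonempty

/-- The lower irredundance number: the least size of an inclusion-maximal irredundant set. -/
noncomputable def ir {V : Type} (G : SimpleGraph V) : ℕ :=
  sInf {k | ∃ S : Set V, Maximal (Irredundant G) S ∧ S.ncard = k}

variable {n : ℕ}

def At (p q : Fin n × Fin n) : Prop := p.1 = q.1 ∨ p.2 = q.2 ∨ |(p.1 : ℤ) - (q.1 : ℤ)| = |(p.2 : ℤ) - (q.2 : ℤ)|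

lemma mem_cn (p q : Fin n × Fin n) : q ∈ closedNbhd (queens n) p ↔ At p q := by
  unfold closedNbhd queens At
  simp only [Set.mem_ofPred_eq]
  constructor
  · rintro (h | h)
    · subst h
      exact Or.inl rfl
    · exact h.2
  · intro h
    by_cases hpq : q = p
    · exact Or.inl hpq
    · exact Or.inr ⟨fun h => hpq h.symm, h⟩

lemma at_symm {p q : Fin n × Fin n} (h : At p q) : At q p := by
  rcases h with h | h | h
  · exact Or.inl h.symm
  · exact Or.inr (Or.inl h.symm)
  · refine Or.inr (Or.inr ?_)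
    rw [abs_sub_comm, h, abs_sub_comm]

lemma at_swap {p q : Fin n × Fin n} : At p.swap q.swap ↔ At p q := by
  unfold At
  simp only [Prod.fst_swap, Prod.snd_swap]
  constructor
  · rintro (h | h | h)
    · exact Or.inr (Or.inl h)
    · exact Or.inl h
    · exact Or.inr (Or.inr h.symm)
  · rintro (h | h | h)
    · exact Or.inr (Or.inl h)
    · exact Or.inl h
    · exact Or.inr (Or.inr h.symm)

def Pr (S : Finset (Fin n × Fin n)) (s w : Fin n × Fin n) : Prop := At s w ∧ ∀ s' ∈ S, s' ≠ s → ¬ At s' w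

def Un (S : Finset (Fin n × Fin n)) (u : Fin n × Fin n) : Prop := ∀ s ∈ S, ¬ At s u

structure H (S : Finset (Fin n × Fin n)) : Prop where
  priv : ∀ s ∈ S, ∃ w, Pr S s w
  kill : ∀ u, Un S u → ∀ v, At u v → ∃ s ∈ S, ∀ w, Pr S s w → At w v

def sw (S : Finset (Fin n × Fin n)) : Finset (Fin n × Fin n) := S.map (Equiv.prodComm _ _).toEmbedding

lemma mem_sw {S : Finset (Fin n × Fin n)} {p : Fin n × Fin n} : p ∈ sw S ↔ p.swap ∈ S := by
  unfold sw
  rw [Finset.mem_map_equiv]
  rfl

lemma card_sw (S : Finset (Fin n × Fin n)) : (sw S).card = S.card := Finset.card_map _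

lemma sw_sw (S : Finset (Fin n × Fin n)) : sw (sw S) = S := by
  ext p
  rw [mem_sw, mem_sw, Prod.swap_swap]

lemma pr_sw {S : Finset (Fin n × Fin n)} {s w : Fin n × Fin n} : Pr (sw S) s w ↔ Pr S s.swap w.swap := by
  unfold Pr
  rw [at_swap]
  refine and_congr Iff.rfl ⟨fun h s' hs' hne => ?_, fun h s' hs' hne => ?_⟩
  · have h1 := h s'.swap (by rw [mem_sw, Prod.swap_swap]; exact hs') (fun h2 => hne (by rw [← h2, Prod.swap_swap]))
    rw [← at_swap, Prod.swap_swap] at h1
    exact h1
  · have h1 := h s'.swap (mem_sw.1 hs') (fun h2 => hne (Prod.swap_injective h2))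
    rw [at_swap] at h1
    exact h1

lemma un_sw {S : Finset (Fin n × Fin n)} {u : Fin n × Fin n} : Un (sw S) u ↔ Un S u.swap := by
  unfold Un
  constructor
  · intro h s hs
    have h1 := h s.swap (by rw [mem_sw, Prod.swap_swap]; exact hs)
    rw [← at_swap, Prod.swap_swap] at h1
    exact h1
  · intro h s hs
    have h1 := h s.swap (mem_sw.1 hs)
    rw [at_swap] at h1
    exact h1

lemma H.sw {S : Finset (Fin n × Fin n)} (h : H S) : H (sw S) := by
  refine ⟨fun s hs => ?_, fun u hu v hv => ?_⟩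
  · obtain ⟨w, hw⟩ := h.priv s.swap (mem_sw.1 hs)
    exact ⟨w.swap, by rw [pr_sw, Prod.swap_swap]; exact hw⟩
  · obtain ⟨s, hs, hk⟩ := h.kill u.swap (un_sw.1 hu) v.swap (at_swap.2 hv)
    refine ⟨s.swap, by rw [mem_sw, Prod.swap_swap]; exact hs, fun w hw => ?_⟩
    rw [pr_sw, Prod.swap_swap] at hw
    exact at_swap.1 (hk _ hw)

open Classical in
lemma three (w : Fin n × Fin n) (r : Fin n) (h : w.1 ≠ r) :
    (Finset.univ.filter fun c : Fin n => At w (r, c)).card ≤ 3 := by
  have h1 : (Finset.univ.filter fun c : Fin n => At w (r, c)).card ≤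
      ({(w.2 : ℤ), (w.2 : ℤ) - ((w.1 : ℤ) - r), (w.2 : ℤ) + ((w.1 : ℤ) - r)} : Finset ℤ).card := by
    refine Finset.card_le_card_of_injOn (fun c => ((c : ℕ) : ℤ)) ?_ ?_
    · intro c hc
      have hc1 : At w (r, c) := by simpa using hc
      simp only [Finset.coe_insert, Finset.coe_singleton, Set.mem_insert_iff, Set.mem_singleton_iff]
      rcases hc1 with h2 | h2 | h2
      · exact absurd h2 h
      · left
        have h3 : w.2 = c := h2
        rw [h3]
      · rcases abs_eq_abs.1 h2 with h3 | h3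
        · right; left
          have h4 : (w.1 : ℤ) - (r : ℤ) = (w.2 : ℤ) - (c : ℤ) := h3
          show ((c : ℕ) : ℤ) = _
          linarith
        · right; right
          have h4 : (w.1 : ℤ) - (r : ℤ) = -((w.2 : ℤ) - (c : ℤ)) := h3
          show ((c : ℕ) : ℤ) = _
          linarith
    · intro c _ c' _ hcc
      have h2 : ((c : ℕ) : ℤ) = ((c' : ℕ) : ℤ) := hcc
      exact Fin.ext (by exact_mod_cast h2)
  exact h1.trans Finset.card_le_three

open Classical in
lemma rowA {S : Finset (Fin n × Fin n)} (hH : H S) (h3 : 3 * S.card < n) {u : Fin n × Fin n} (hu : Un S u) :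
    ∃ s ∈ S, ∀ w, Pr S s w → w.1 = u.1 := by
  by_contra hcon
  push Not at hcon
  choose! f hf using hcon
  have h1 : (Finset.univ : Finset (Fin n)) ⊆ S.biUnion fun s => Finset.univ.filter fun c : Fin n => At (f s) (u.1, c) := by
    intro c _
    obtain ⟨s, hs, hk⟩ := hH.kill u hu (u.1, c) (Or.inl rfl)
    rw [Finset.mem_biUnion]
    exact ⟨s, hs, by
      rw [Finset.mem_filter]
      exact ⟨Finset.mem_univ _, hk _ (hf s hs).1⟩⟩
  have h2 := Finset.card_le_card h1
  rw [Finset.card_univ, Fintype.card_fin] at h2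
  have h4 : (S.biUnion fun s => Finset.univ.filter fun c : Fin n => At (f s) (u.1, c)).card ≤ S.card * 3 :=
    Finset.card_biUnion_le_card_mul _ _ _ fun s hs => three _ _ (hf s hs).2
  omega

lemma colA {S : Finset (Fin n × Fin n)} (hH : H S) (h3 : 3 * S.card < n) {u : Fin n × Fin n} (hu : Un S u) :
    ∃ s ∈ S, ∀ w, Pr S s w → w.2 = u.2 := by
  obtain ⟨s, hs, h⟩ := rowA hH.sw (by rw [card_sw]; exact h3) (u := u.swap) (un_sw.2 (by rw [Prod.swap_swap]; exact hu))
  refine ⟨s.swap, mem_sw.1 hs, fun w hw => ?_⟩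
  have h1 := h w.swap (by rw [pr_sw, Prod.swap_swap]; exact hw)
  exact h1

open Classical in
lemma rowOcc {S : Finset (Fin n × Fin n)} (hH : H S) (h3 : 3 * S.card < n) {u : Fin n × Fin n} (hu : Un S u) :
    (S.image Prod.fst).card + 1 ≤ S.card := by
  obtain ⟨s0, hs0, hp⟩ := colA hH h3 hu
  have hk : 1 ≤ S.card := Finset.card_pos.2 ⟨s0, hs0⟩
  have hex : ∃ s' ∈ S, s' ≠ s0 ∧ s'.1 = s0.1 := by
    by_contra hcon
    push Not at hcon
    have h1 : (Finset.univ.erase u.2 : Finset (Fin n)) ⊆
        (S.erase s0).biUnion fun s => Finset.univ.filter fun c : Fin n => At s (s0.1, c) := by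
      intro c hc
      have hc1 : c ≠ u.2 := (Finset.mem_erase.1 hc).1
      have h2 : ¬ Pr S s0 (s0.1, c) := fun h => hc1 (hp _ h)
      unfold Pr at h2
      rw [not_and] at h2
      have h4 := h2 (Or.inl rfl)
      push Not at h4
      obtain ⟨s', hs', hne, hat⟩ := h4
      rw [Finset.mem_biUnion]
      exact ⟨s', Finset.mem_erase.2 ⟨hne, hs'⟩, by
        rw [Finset.mem_filter]
        exact ⟨Finset.mem_univ _, hat⟩⟩
    have h2 := Finset.card_le_card h1
    rw [Finset.card_erase_of_mem (Finset.mem_univ _), Finset.card_univ, Fintype.card_fin] at h2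
    have h4 : ((S.erase s0).biUnion fun s => Finset.univ.filter fun c : Fin n => At s (s0.1, c)).card ≤
        (S.erase s0).card * 3 :=
      Finset.card_biUnion_le_card_mul _ _ _ fun s hs =>
        three _ _ (hcon s (Finset.mem_erase.1 hs).2 (Finset.mem_erase.1 hs).1)
    rw [Finset.card_erase_of_mem hs0] at h4
    omega
  obtain ⟨s', hs', hne, he⟩ := hex
  have h1 : S.image Prod.fst ⊆ (S.erase s0).image Prod.fst := by
    intro i hi
    obtain ⟨t, ht, rfl⟩ := Finset.mem_image.1 hi
    by_cases hts : t = s0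
    · rw [hts, ← he]
      exact Finset.mem_image_of_mem _ (Finset.mem_erase.2 ⟨hne, hs'⟩)
    · exact Finset.mem_image_of_mem _ (Finset.mem_erase.2 ⟨hts, ht⟩)
  have h2 := (Finset.card_le_card h1).trans Finset.card_image_le
  rw [Finset.card_erase_of_mem hs0] at h2
  omega

open Classical in
/-- Spencer's argument with exceptional rows. -/
lemma core (S : Finset (Fin n × Fin n)) (X : Finset (Fin n)) (hX : ∀ u, Un S u → u.1 ∈ X) (a b c d : Fin n)
    (hab : a < b) (ha : ∀ s ∈ S, s.2 ≠ a) (hb : ∀ s ∈ S, s.2 ≠ b)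
    (hcd : ∀ i : Fin n, (∀ s ∈ S, s.1 ≠ i) → c ≤ i ∧ i ≤ d) (hδ : (d : ℤ) - c ≤ (b : ℤ) - a) :
    n ≤ S.card + X.card + (S.image Prod.fst).card + 1 := by
  set D : Finset (Fin n) := Finset.univ.filter fun i => (∀ s ∈ S, s.1 ≠ i) ∧ i ∉ X ∧ i ≠ d with hD
  have hcov : (Finset.univ : Finset (Fin n)) ⊆ ((D ∪ X) ∪ S.image Prod.fst) ∪ {d} := by
    intro i _
    simp only [Finset.mem_union, Finset.mem_singleton, Finset.mem_image, hD, Finset.mem_filter, Finset.mem_univ, true_and]
    by_cases h1 : i = d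
    · exact Or.inr h1
    · by_cases h2 : i ∈ X
      · exact Or.inl (Or.inl (Or.inr h2))
      · by_cases h3 : ∃ s ∈ S, s.1 = i
        · exact Or.inl (Or.inr h3)
        · push Not at h3
          exact Or.inl (Or.inl (Or.inl ⟨h3, h2, h1⟩))
  have hcard := Finset.card_le_card hcov
  rw [Finset.card_univ, Fintype.card_fin] at hcard
  have u1 := Finset.card_union_le ((D ∪ X) ∪ S.image Prod.fst) {d}
  have u2 := Finset.card_union_le (D ∪ X) (S.image Prod.fst)
  have u3 := Finset.card_union_le D X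
  rw [Finset.card_singleton] at u1
  have key : ∀ i : Fin n, ∀ e : Fin n, i ∈ D → (e = a ∨ e = b) → ∃ t : (Fin n × Fin n) × Bool, t.1 ∈ S ∧
      (t.2 = true → (t.1.1 : ℤ) - t.1.2 = (i : ℤ) - e) ∧ (t.2 = false → (t.1.1 : ℤ) + t.1.2 = (i : ℤ) + e) := by
    intro i e hi he
    rw [hD, Finset.mem_filter] at hi
    obtain ⟨-, hi1, hi2, -⟩ := hi
    have h1 : ¬ Un S (i, e) := fun h => hi2 (hX _ h)
    unfold Un at h1
    push Not at h1
    obtain ⟨s, hs, hat⟩ := h1
    rcases hat with h2 | h2 | h2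
    · exact absurd h2 (hi1 s hs)
    · exfalso
      rcases he with rfl | rfl
      · exact ha s hs h2
      · exact hb s hs h2
    · rcases abs_eq_abs.1 h2 with h3 | h3
      · refine ⟨(s, true), hs, fun _ => ?_, fun h => by simp at h⟩
        have h4 : (s.1 : ℤ) - (i : ℤ) = (s.2 : ℤ) - (e : ℤ) := h3
        show (s.1 : ℤ) - s.2 = (i : ℤ) - e
        linarith
      · refine ⟨(s, false), hs, fun h => by simp at h, fun _ => ?_⟩
        have h4 : (s.1 : ℤ) - (i : ℤ) = -((s.2 : ℤ) - (e : ℤ)) := h3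
        show (s.1 : ℤ) + s.2 = (i : ℤ) + e
        linarith
  choose! g hg using key
  have hDrow : ∀ i ∈ D, (c : ℤ) ≤ i ∧ (i : ℤ) < d := by
    intro i hi
    rw [hD, Finset.mem_filter] at hi
    obtain ⟨-, hi1, -, hi3⟩ := hi
    obtain ⟨h1, h2⟩ := hcd i hi1
    have h3 : i < d := lt_of_le_of_ne h2 hi3
    exact ⟨by exact_mod_cast h1, by exact_mod_cast h3⟩
  have hinj : (D ×ˢ ({a, b} : Finset (Fin n))).card ≤ (S ×ˢ (Finset.univ : Finset Bool)).card := by
    refine Finset.card_le_card_of_injOn (fun x => g x.1 x.2) ?_ ?_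
    · rintro ⟨i, e⟩ hx
      have hx1 : i ∈ D ∧ (e = a ∨ e = b) := by simpa using hx
      have h1 := (hg i e hx1.1 hx1.2).1
      simpa using h1
    · rintro ⟨i, e⟩ hx ⟨i', e'⟩ hx' heq
      have hx1 : i ∈ D ∧ (e = a ∨ e = b) := by simpa using hx
      have hx2 : i' ∈ D ∧ (e' = a ∨ e' = b) := by simpa using hx'
      obtain ⟨-, t1, f1⟩ := hg i e hx1.1 hx1.2
      obtain ⟨-, t2, f2⟩ := hg i' e' hx2.1 hx2.2
      have heq' : g i e = g i' e' := heq
      rw [heq'] at t1 f1
      obtain ⟨r1, r2⟩ := hDrow i hx1.1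
      obtain ⟨r3, r4⟩ := hDrow i' hx2.1
      have hab' : (a : ℤ) < b := by exact_mod_cast hab
      have fin_eq : ∀ x y : Fin n, (x : ℤ) = y → x = y := fun x y h => Fin.ext (by exact_mod_cast h)
      have main : (i : ℤ) = i' ∧ (e : ℤ) = e' := by
        cases hb2 : (g i' e').2 with
        | true =>
          have q1 := t1 hb2
          have q2 := t2 hb2
          rcases hx1.2 with rfl | rfl <;> rcases hx2.2 with rfl | rfl <;> constructor <;> linarith
        | false =>
          have q1 := f1 hb2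
          have q2 := f2 hb2
          rcases hx1.2 with rfl | rfl <;> rcases hx2.2 with rfl | rfl <;> constructor <;> linarith
      rw [Prod.mk.injEq]
      exact ⟨fin_eq _ _ main.1, fin_eq _ _ main.2⟩
  rw [Finset.card_product, Finset.card_product, Finset.card_pair hab.ne, Finset.card_univ, Fintype.card_bool] at hinj
  omega

open Classical in
lemma half {S : Finset (Fin n × Fin n)} (hH : H S) (h3 : 3 * S.card < n) (_hk : 1 ≤ S.card) (a b c d : Fin n)
    (hab : a < b) (ha : ∀ s ∈ S, s.2 ≠ a) (hb : ∀ s ∈ S, s.2 ≠ b)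
    (hcd : ∀ i : Fin n, (∀ s ∈ S, s.1 ≠ i) → c ≤ i ∧ i ≤ d) (hδ : (d : ℤ) - c ≤ (b : ℤ) - a) : False := by
  by_cases hR : ∃ u, Un S u
  · obtain ⟨u, hu⟩ := hR
    have ho := rowOcc hH h3 hu
    have hp := hH.priv
    choose! f hf using hp
    have h1 := core S (S.image fun s => (f s).1) (fun v hv => by
      obtain ⟨s, hs, h⟩ := rowA hH h3 hv
      rw [← h _ (hf s hs)]
      exact Finset.mem_image_of_mem (fun s => (f s).1) hs) a b c d hab ha hb hcd hδ
    have h2 : (S.image fun s => (f s).1).card ≤ S.card := Finset.card_image_le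
    omega
  · push Not at hR
    have h1 := core S ∅ (fun v hv => absurd hv (hR v)) a b c d hab ha hb hcd hδ
    have h2 : (S.image Prod.fst).card ≤ S.card := Finset.card_image_le
    rw [Finset.card_empty] at h1
    omega

open Classical in
lemma main {S : Finset (Fin n × Fin n)} (hH : H S) : n ≤ 3 * S.card := by
  by_contra hcon
  push Not at hcon
  have hn : 0 < n := by omega
  have hk : 1 ≤ S.card := by
    by_contra h0
    have h1 : S = ∅ := Finset.card_eq_zero.1 (by omega)
    obtain ⟨s, hs, -⟩ := hH.kill (⟨0, hn⟩, ⟨0, hn⟩) (fun s hs => by rw [h1] at hs; simp at hs) (⟨0, hn⟩, ⟨0, hn⟩) (Or.inl rfl)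
    rw [h1] at hs
    simp at hs
  have hext : ∀ π : Fin n × Fin n → Fin n, ∃ a b : Fin n, a < b ∧ (∀ s ∈ S, π s ≠ a) ∧ (∀ s ∈ S, π s ≠ b) ∧
      ∀ i : Fin n, (∀ s ∈ S, π s ≠ i) → a ≤ i ∧ i ≤ b := by
    intro π
    set E : Finset (Fin n) := Finset.univ \ S.image π with hE
    have hmem : ∀ i, i ∈ E ↔ ∀ s ∈ S, π s ≠ i := by
      intro i
      rw [hE, Finset.mem_sdiff]
      simp
    have hcard : 1 < E.card := by
      have h1 : (Finset.univ : Finset (Fin n)).card - (S.image π).card ≤ E.card := Finset.le_card_sdiff _ _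
      rw [Finset.card_univ, Fintype.card_fin] at h1
      have h2 : (S.image π).card ≤ S.card := Finset.card_image_le
      omega
    have hne : E.Nonempty := Finset.card_pos.1 (by omega)
    refine ⟨E.min' hne, E.max' hne, Finset.min'_lt_max'_of_card _ hcard, (hmem _).1 (Finset.min'_mem _ _),
      (hmem _).1 (Finset.max'_mem _ _), fun i hi => ⟨Finset.min'_le _ _ ((hmem _).2 hi), Finset.le_max' _ _ ((hmem _).2 hi)⟩⟩
  obtain ⟨c, d, hcd, hc, hd, hrow⟩ := hext Prod.fst
  obtain ⟨a, b, hab, ha, hb, hcol⟩ := hext Prod.snd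
  rcases le_total ((d : ℤ) - c) ((b : ℤ) - a) with hδ | hδ
  · exact half hH hcon hk a b c d hab ha hb hrow hδ
  · refine half hH.sw (by rw [card_sw]; exact hcon) (by rw [card_sw]; exact hk) c d a b hcd (fun s hs => hc _ (mem_sw.1 hs))
      (fun s hs => hd _ (mem_sw.1 hs)) (fun i hi => hcol i fun s hs => ?_) hδ
    exact hi s.swap (by rw [mem_sw, Prod.swap_swap]; exact hs)

lemma toH {S : Finset (Fin n × Fin n)} (hS : Maximal (Irredundant (queens n)) (S : Set (Fin n × Fin n))) : H S := by
  refine ⟨fun s hs => ?_, fun u hu v hv => ?_⟩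
  · obtain ⟨w, hw1, hw2⟩ := hS.1 s hs
    refine ⟨w, (mem_cn _ _).1 hw1, fun s' hs' hne hat => hw2 ⟨s', ⟨hs', hne⟩, (mem_cn _ _).2 hat⟩⟩
  · have hvS : v ∉ (S : Set (Fin n × Fin n)) := fun h => hu v h (at_symm hv)
    have hT : ¬ Irredundant (queens n) (insert v (S : Set (Fin n × Fin n))) := fun h =>
      hvS (hS.2 h (Set.subset_insert _ _) (Set.mem_insert _ _))
    unfold Irredundant at hT
    push Not at hT
    obtain ⟨t, ht, hemp⟩ := hT
    have hout : ∀ w, At t w → ∃ s', (s' = v ∨ s' ∈ S) ∧ s' ≠ t ∧ At s' w := by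
      intro w hw
      by_contra hcon
      have h1 : w ∈ closedNbhd (queens n) t \ closedNbhdSet (queens n) (insert v (S : Set (Fin n × Fin n)) \ {t}) := by
        refine ⟨(mem_cn _ _).2 hw, ?_⟩
        rintro ⟨s', ⟨hs1, hs2⟩, hs3⟩
        exact hcon ⟨s', hs1, hs2, (mem_cn _ _).1 hs3⟩
      rw [hemp] at h1
      exact h1
    rcases ht with ht | ht
    · exfalso
      obtain ⟨s', h1, h2, h3⟩ := hout u (by rw [ht]; exact at_symm hv)
      rcases h1 with h1 | h1
      · exact h2 (h1.trans ht.symm)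
      · exact hu s' h1 h3
    · refine ⟨t, ht, fun w hw => ?_⟩
      obtain ⟨s', h1, h2, h3⟩ := hout w hw.1
      rcases h1 with h1 | h1
      · rw [← h1]
        exact at_symm h3
      · exact absurd h3 (hw.2 s' h1 h2)

/-- Every inclusion-maximal irredundant set `S` of the queens graph `Q_n` satisfies `n ≤ 3 |S|`. So the lower
irredundance number `ir(Q_n)` is at least `n / 3`. -/
theorem result (n : ℕ) :
    (∀ S : Set (Fin n × Fin n), Maximal (Irredundant (queens n)) S → n ≤ 3 * S.ncard) ∧ n ≤ 3 * ir (queens n) := by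
  have h1 : ∀ S : Set (Fin n × Fin n), Maximal (Irredundant (queens n)) S → n ≤ 3 * S.ncard := by
    intro S hS
    have hfin : S.Finite := Set.toFinite S
    have h2 : ((hfin.toFinset : Finset (Fin n × Fin n)) : Set (Fin n × Fin n)) = S := hfin.coe_toFinset
    have h3 := main (toH (S := hfin.toFinset) (by rw [h2]; exact hS))
    rw [← h2, Set.ncard_coe_finset]
    exact h3
  refine ⟨h1, ?_⟩
  have hne : {k | ∃ S : Set (Fin n × Fin n), Maximal (Irredundant (queens n)) S ∧ S.ncard = k}.Nonempty := by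
    have h0 : Irredundant (queens n) ∅ := fun v hv => absurd hv (Set.notMem_empty v)
    obtain ⟨S, -, hS⟩ := (Set.toFinite {S | Irredundant (queens n) S}).exists_le_maximal h0
    exact ⟨S.ncard, S, hS, rfl⟩
  obtain ⟨S, hS, hk⟩ := Nat.sInf_mem hne
  unfold ir
  rw [← hk]
  exact h1 S hS

end Pool.Agent.Results.MP_475ccd_co.ThirdBoundH58
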